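import Pool.Agent.K3h44.RQ.Stm2
import Pool.Agent.K3h42.RQ.STABM

/-!
# The cyclotomic unit of a real quadratic field (brick ETA of helper44's project RQ; helper16)
-/

set_option autoImplicit false

namespace Pool.Agent.K3h16.RQ

open NumberField IsDedekindDomain Pool.Agent.K3h44.RQ

section

variable {m : ℕ} [NeZero m] {L : Type} [Field L] [NumberField L]

/-- an element fixed by all automorphisms is rational -/
lemma rat_of_fixed (c : CycM m L) (x : L) (h : ∀ t, c.σ t x = x) : ∃ q : ℚ, (q : L) = x := by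
  have hg : IsGalois ℚ L := Pool.Agent.K3h42.RQ.isGal c
  have h1 : x ∈ Set.range (algebraMap ℚ L) := by
    rw [IsGalois.mem_range_algebraMap_iff_fixed]
    intro f
    obtain ⟨t, rfl⟩ := c.all f
    exact h t
  obtain ⟨q, hq⟩ := h1
  exact ⟨q, by rw [← hq, eq_ratCast (algebraMap ℚ L)]⟩

omit [NeZero m] in
lemma pow_val_mul (c : CycM m L) (t u : (ZMod m)ˣ) :
    c.z ^ ((t * u : (ZMod m)ˣ) : ZMod m).val = (c.z ^ (t : ZMod m).val) ^ (u : ZMod m).val := by
  rw [Units.val_mul, ZMod.val_mul, ← pow_mul]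
  conv_rhs => rw [← pow_mod_orderOf]
  rw [← c.prim.eq_orderOf]

omit [NeZero m] in
lemma sigma_fac (c : CycM m L) (t u : (ZMod m)ˣ) :
    c.σ t (1 - c.z ^ (u : ZMod m).val) = 1 - c.z ^ ((t * u : (ZMod m)ˣ) : ZMod m).val := by
  rw [map_sub, map_one, map_pow, c.σ_z, pow_val_mul]

lemma fac_ne (c : CycM m L) (hm : 1 < m) (u : (ZMod m)ˣ) : 1 - c.z ^ (u : ZMod m).val ≠ 0 := by
  intro h
  have h1 : c.z ^ (u : ZMod m).val = 1 := (sub_eq_zero.1 h).symm
  have h2 := c.prim.dvd_of_pow_eq_one _ h1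
  have h3 := ZMod.val_lt (u : ZMod m)
  have h4 : (u : ZMod m).val = 0 := Nat.eq_zero_of_dvd_of_lt h2 h3
  rw [ZMod.val_eq_zero] at h4
  have : Fact (1 < m) := ⟨hm⟩
  exact u.ne_zero h4

lemma int_quot (c : CycM m L) (hm : 1 < m) (t u : (ZMod m)ˣ) :
    IsIntegral ℤ ((1 - c.z ^ (u : ZMod m).val) / (1 - c.z ^ (t : ZMod m).val)) := by
  have h1 : c.z ^ (u : ZMod m).val = (c.z ^ (t : ZMod m).val) ^ ((t⁻¹ * u : (ZMod m)ˣ) : ZMod m).val := by
    rw [← pow_val_mul, mul_inv_cancel_left]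
  have h2 : (1 - c.z ^ (u : ZMod m).val) / (1 - c.z ^ (t : ZMod m).val) =
      ∑ i ∈ Finset.range ((t⁻¹ * u : (ZMod m)ˣ) : ZMod m).val, (c.z ^ (t : ZMod m).val) ^ i := by
    rw [div_eq_iff (fac_ne c hm t), h1, geom_sum_mul_neg]
  rw [h2]
  exact IsIntegral.sum _ fun i _ => ((c.prim.isIntegral (NeZero.pos m)).pow _).pow _

end

theorem t_ETA : S_SQRT → S_ETA := by
  intro hSQRT d hd hsq _ K _ _ hK s hs L _ _ c j
  classical
  have hD : 1 < dsc d := by
    unfold dsc
    split_ifs <;> omega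
  obtain ⟨r, hr, hσr⟩ := hSQRT d hd hsq (dsc d) dvd_rfl L c
  have hd0 : (d : L) ≠ 0 := by
    have : d ≠ 0 := by omega
    exact_mod_cast this
  have hr0 : r ≠ 0 := by
    rintro rfl
    exact hd0 (by rw [← hr]; ring)
  set X : (ZMod (dsc d))ˣ → ℤ := fun t => chi d (t : ZMod (dsc d)).val with hX
  have hX2 : ∀ t, X t = 1 ∨ X t = -1 := by
    intro t
    have h1 : c.σ t (r ^ 2) = r ^ 2 := by rw [hr, map_natCast]
    rw [map_pow, hσr] at h1
    have h2 : (((X t) ^ 2 : ℤ) : L) = 1 := by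
      have h3 : (((X t : ℤ) : L) ^ 2 - 1) * r ^ 2 = 0 := by
        linear_combination h1
      rcases mul_eq_zero.1 h3 with h4 | h4
      · push_cast
        linear_combination h4
      · exact absurd h4 (pow_ne_zero 2 hr0)
    have h3 : (X t) ^ 2 = 1 := by exact_mod_cast h2
    have h4 : (X t - 1) * (X t + 1) = 0 := by linear_combination h3
    rcases mul_eq_zero.1 h4 with h5 | h5
    · left; omega
    · right; omega
  have hXmul : ∀ t u, X (t * u) = X t * X u := by
    intro t u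
    have h1 : c.σ (t * u) r = c.σ t (c.σ u r) := by rw [map_mul]; rfl
    rw [hσr, hσr, map_mul, hσr, map_intCast] at h1
    have h2 : ((X (t * u) : ℤ) : L) = ((X t * X u : ℤ) : L) := by
      apply mul_right_cancel₀ hr0
      push_cast
      linear_combination h1
    exact_mod_cast h2
  obtain ⟨t0, ht0⟩ : ∃ t0, X t0 = -1 := by
    by_contra hcon
    push Not at hcon
    have h1 : ∀ t, c.σ t r = r := by
      intro t
      have h2 := (hX2 t).resolve_right (hcon t)
      rw [hσr]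
      change ((X t : ℤ) : L) * r = r
      rw [h2]; simp
    obtain ⟨q, hq⟩ := rat_of_fixed c r h1
    have h2 : q ^ 2 = d := by
      have h3 : ((q ^ 2 : ℚ) : L) = ((d : ℚ) : L) := by
        push_cast
        rw [hq, hr]
      exact_mod_cast h3
    have h4 : IsSquare ((d : ℕ) : ℚ) := ⟨q, by rw [← h2, sq]⟩
    rw [Rat.isSquare_natCast_iff] at h4
    obtain ⟨k, hk⟩ := h4
    have h5 : IsUnit k := hsq k ⟨1, by rw [mul_one, hk]⟩
    rw [Nat.isUnit_iff] at h5
    rw [hk, h5] at hd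
    omega
  -- the square root of `d`
  have hjs : (j s) ^ 2 = (d : L) := by rw [← map_pow, hs, map_natCast]
  have hσs : ∀ t, c.σ t (j s) = ((X t : ℤ) : L) * j s := by
    intro t
    rcases sq_eq_sq_iff_eq_or_eq_neg.1 (hjs.trans hr.symm) with h | h
    · rw [h, hσr]
    · rw [h, map_neg, hσr]
      ring
  have hjs0 : j s ≠ 0 := by
    intro h
    rw [h] at hjs
    exact hd0 (by rw [← hjs]; ring)
  have hσP : ∀ t (e : ℤ), c.σ t (PP c e) = PP c (X t * e) := by
    intro t e
    unfold PP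
    rw [map_prod]
    refine Finset.prod_equiv (Equiv.mulLeft t) (fun i => ?_) (fun i _ => ?_)
    · rw [Finset.mem_filter, Finset.mem_filter]
      simp only [Finset.mem_univ, true_and]
      change X i = e ↔ X (t * i) = X t * e
      rw [hXmul]
      rcases hX2 t with h | h <;> rw [h] <;> constructor <;> intro h' <;> omega
    · rw [sigma_fac]
      rfl
  have hP0 : ∀ e : ℤ, PP c e ≠ 0 := by
    intro e
    unfold PP
    exact Finset.prod_ne_zero_iff.2 fun u _ => fac_ne c hD u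
  set A := PP c 1 with hA
  set B := PP c (-1) with hB
  have hA0 : A ≠ 0 := hP0 1
  have hB0 : B ≠ 0 := hP0 (-1)
  have hσ1 : ∀ t, X t = 1 → c.σ t (A / B) = A / B := by
    intro t h
    rw [map_div₀, hA, hB, hσP, hσP, h, one_mul, one_mul]
  have hσ2 : ∀ t, X t = -1 → c.σ t (A / B) = (A / B)⁻¹ := by
    intro t h
    rw [map_div₀, hA, hB, hσP, hσP, h, inv_div]
    norm_num
  have hθ0 : A / B ≠ 0 := div_ne_zero hA0 hB0
  obtain ⟨q1, hq1⟩ := rat_of_fixed c (A / B + (A / B)⁻¹) (fun t => by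
    rcases hX2 t with h | h
    · rw [map_add, map_inv₀, hσ1 t h]
    · rw [map_add, map_inv₀, hσ2 t h, inv_inv, add_comm])
  obtain ⟨q2, hq2⟩ := rat_of_fixed c ((A / B - (A / B)⁻¹) * j s) (fun t => by
    rcases hX2 t with h | h
    · rw [map_mul, map_sub, map_inv₀, hσ1 t h, hσs, h]
      simp
    · rw [map_mul, map_sub, map_inv₀, hσ2 t h, inv_inv, hσs, h]
      push_cast
      ring)
  set x : K := (q1 : K) / 2 + (q2 : K) / (2 * (d : K)) * s with hx
  have hjx : j x = A / B := by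
    rw [hx, map_add, map_div₀, map_mul, map_div₀, map_mul, map_ratCast, map_ratCast, map_natCast,
      map_ofNat, hq1, hq2]
    field_simp
    rw [hjs]
    field_simp
    ring
  -- integrality
  have hint : IsIntegral ℤ (A / B) := by
    have h1 : B = c.σ t0 A := by
      rw [hA, hσP, ht0, hB, mul_one]
    have h2 : c.σ t0 A = ∏ u ∈ Finset.univ.filter
        (fun u : (ZMod (dsc d))ˣ => chi d (u : ZMod (dsc d)).val = 1),
          (1 - c.z ^ ((t0 * u : (ZMod (dsc d))ˣ) : ZMod (dsc d)).val) := by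
      rw [hA]
      unfold PP
      rw [map_prod]
      exact Finset.prod_congr rfl fun u _ => sigma_fac c t0 u
    rw [h1, h2, hA]
    unfold PP
    rw [← Finset.prod_div_distrib]
    exact IsIntegral.prod _ fun u _ => int_quot c hD _ _
  have hint' : IsIntegral ℤ (A / B)⁻¹ := by
    rw [← hσ2 t0 ht0]
    exact hint.map ((c.σ t0 : L →ₐ[ℚ] L).restrictScalars ℤ)
  have hj : Function.Injective j.toIntAlgHom := j.injective
  have hx1 : IsIntegral ℤ x := by
    rw [← isIntegral_algHom_iff j.toIntAlgHom hj]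
    change IsIntegral ℤ (j x)
    rw [hjx]
    exact hint
  have hx2 : IsIntegral ℤ x⁻¹ := by
    rw [← isIntegral_algHom_iff j.toIntAlgHom hj]
    change IsIntegral ℤ (j x⁻¹)
    rw [map_inv₀, hjx]
    exact hint'
  have hx0 : x ≠ 0 := by
    intro h
    rw [h, map_zero] at hjx
    exact hθ0 hjx.symm
  refine ⟨⟨⟨x, hx1⟩, ⟨x⁻¹, hx2⟩, ?_, ?_⟩, ?_⟩
  · apply RingOfIntegers.ext
    exact mul_inv_cancel₀ hx0
  · apply RingOfIntegers.ext
    exact inv_mul_cancel₀ hx0
  · change j x * B = A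
    rw [hjx, div_mul_cancel₀ _ hB0]

end Pool.Agent.K3h16.RQ
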